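import Pool.Agent.Q225.GH.Stm

set_option autoImplicit false

/-!
# Job FORMF of project GH: boundaries of faces are orthogonal to all cycles
-/

namespace Pool.Agent.Q103.GH

open Finset Pool.Agent.Q225.GH

section

variable {V : Type} [Fintype V] [DecidableEq V] {H : SimpleGraph V} [DecidableRel H.Adj]

open Classical in
/-- the indicator function of a face -/
noncomputable def ind (σ : Equiv.Perm H.Dart) (f : Faces σ) (d : H.Dart) : ZMod 2 :=
  if (Quotient.mk _ d : Faces σ) = f then 1 else 0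

theorem fch_eq (σ : Equiv.Perm H.Dart) (f : Faces σ) (e : H.edgeSet) :
    fch σ f e = ∑ d : H.Dart with d.edge = e.1, ind σ f d := by
  unfold fch ind
  rw [Finset.sum_filter, Finset.sum_filter]
  refine Finset.sum_congr rfl fun d _ => ?_
  by_cases h1 : d.edge = e.1
  · by_cases h2 : (Quotient.mk _ d : Faces σ) = f
    · rw [if_pos ⟨h1, h2⟩, if_pos h1, if_pos h2]
    · rw [if_neg fun h => h2 h.2, if_pos h1, if_neg h2]
  · rw [if_neg fun h => h1 h.1, if_neg h1]

theorem on_fch (σ : Equiv.Perm H.Dart) (f : Faces σ) (d : H.Dart) :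
    on (fch σ f) d = ind σ f d + ind σ f d.symm := by
  unfold on
  rw [fch_eq]
  have h : (univ.filter fun d' : H.Dart => d'.edge = d.edge) = {d, d.symm} := by
    ext d'
    rw [mem_filter, mem_insert, mem_singleton]
    constructor
    · rintro ⟨_, h⟩
      exact SimpleGraph.dart_edge_eq_iff _ _ |>.1 h
    · intro h
      exact ⟨mem_univ _, SimpleGraph.dart_edge_eq_iff _ _ |>.2 h⟩
  show ∑ d' ∈ univ.filter (fun d' : H.Dart => d'.edge = d.edge), ind σ f d' = _
  rw [h, Finset.sum_pair d.symm_ne.symm]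

theorem sum_fch (σ : Equiv.Perm H.Dart) (f : Faces σ) (Q : Ch H) :
    ∑ e, fch σ f e * Q e = ∑ d : H.Dart, ind σ f d * on Q d := by
  have h1 : ∀ e : H.edgeSet, fch σ f e * Q e =
      ∑ d : H.Dart with (⟨d.edge, d.edge_mem⟩ : H.edgeSet) = e, ind σ f d * on Q d := by
    intro e
    rw [fch_eq, Finset.sum_mul]
    have h2 : (univ.filter fun d : H.Dart => d.edge = e.1) =
        univ.filter fun d : H.Dart => (⟨d.edge, d.edge_mem⟩ : H.edgeSet) = e := by
      ext d
      rw [mem_filter, mem_filter, Subtype.ext_iff]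
    rw [h2]
    refine Finset.sum_congr rfl fun d hd => ?_
    rw [on, (mem_filter.1 hd).2]
  rw [Finset.sum_congr rfl fun e _ => h1 e]
  exact Finset.sum_fiberwise _ _ _

theorem ind_sigma (σ : Equiv.Perm H.Dart) (f : Faces σ) (d : H.Dart) :
    ind σ f (σ d) = ind σ f d.symm := by
  have h : (Quotient.mk _ (σ d) : Faces σ) = Quotient.mk _ d.symm := by
    apply Quotient.sound
    have h1 : (σ * flip H) d.symm = σ d := by
      rw [Equiv.Perm.mul_apply]
      congr 1
    have h2 : (σ * flip H).SameCycle d.symm ((σ * flip H) d.symm) :=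
      Equiv.Perm.sameCycle_apply_right.2 (Equiv.Perm.SameCycle.refl _ _)
    rw [h1] at h2
    exact h2.symm
  unfold ind
  rw [h]

end

theorem t_FORMF (hN : S_NEXT) : S_FORMF := by
  intro V _ _ H _ σ pos hv hpos Q hQ f
  have hC : ∀ d, pot pos Q d + on Q d = pot pos Q (σ⁻¹ d) := by
    intro d
    have h := hN V H σ pos hv hpos Q hQ (σ⁻¹ d)
    rw [show σ (σ⁻¹ d) = d from σ.apply_symm_apply d] at h
    rw [h, add_assoc, CharTwo.add_self_eq_zero, add_zero]
  unfold form
  rw [sum_fch]
  have h1 : ∑ d : H.Dart, on (fch σ f) d * pot pos Q d =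
      ∑ d : H.Dart, ind σ f d * pot pos Q d + ∑ d : H.Dart, ind σ f d.symm * pot pos Q d := by
    rw [← Finset.sum_add_distrib]
    exact Finset.sum_congr rfl fun d _ => by rw [on_fch, add_mul]
  have h2 : ∑ d : H.Dart, ind σ f d * pot pos Q (σ⁻¹ d) =
      ∑ d : H.Dart, ind σ f d.symm * pot pos Q d := by
    rw [← Equiv.sum_comp σ]
    exact Finset.sum_congr rfl fun d _ => by rw [ind_sigma, show σ⁻¹ (σ d) = d from σ.symm_apply_apply d]
  have h3 : ∑ d : H.Dart, ind σ f d * pot pos Q d + ∑ d : H.Dart, ind σ f d * on Q d =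
      ∑ d : H.Dart, ind σ f d * pot pos Q (σ⁻¹ d) := by
    rw [← Finset.sum_add_distrib]
    exact Finset.sum_congr rfl fun d _ => by rw [← mul_add, hC]
  rw [h1, add_right_comm, h3, h2, CharTwo.add_self_eq_zero]

end Pool.Agent.Q103.GH
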